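import Pool.Agent.Y84.PH.G

/-!
# `K₀(K[G])`, cyclic cohomology of positive even degree and finite quotients of centralisers

Let `K` be a field of characteristic zero (a regular ring). If `K₀(K) → K₀(K[G])` is surjective, then
all cyclic cocycles of degree `2 n ≥ 2` on `K[G]`, that is all cycles `(Ω, δ, T)` of dimension
`2 n ≥ 2` in the sense of Connes, vanish on all idempotent matrices `e` over `K[G]`:
`T (e (δ e) ^ (2 n)) = 0`. We prove this for the cycles with values in a finitely generated group if
`G` is torsion-free and the finitely generated subgroups of `G`, or the centralisers of the elements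
`≠ 1`, are residually finite, and a more general statement in which the conjugacy classes are
separated.

Proof. The cycle gives a trace function `Φ` on the words in the elements of `G` which vanishes on the
power `J ^ (n + 1)` of the kernel `J` of `K[words] → K[G]`, and `e` lifts to a matrix `X` over
`K[words]` which is idempotent modulo `J ^ (n + 1)` (library `Pool.Agent.H23R2.Ch`). Let `g ∈ G` and
let `π` be a homomorphism from the centraliser of `g` to a finite group `Q` such that the order of
`c = π(g)` is divisible by `p` and by a high power of `p`; the coefficients of `X` and the values of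
`Φ` are specialised to an algebraic closure of `ℚ_p`. Let `U` be the skew monoid ring of the words
over the ring of functions on `G`, divided by the radical of the trace
`∑ φ_w w ↦ ∑ Φ(w) φ_w(w)`, the sum over the words whose product is conjugate to `g`. The cocycle
`ρ : G × G → Q` defined by `π` decomposes `X` into the coefficients of an idempotent matrix over
`U[Q]`. Replace `c` by a variable `x`; on a `p`-adic disc which contains `ζ` and `ζ ω`, `ζ` a root of
unity and `ω` a root of unity of order `p`, we have a family of approximately idempotent matrices over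
`U`, and the Newton iteration shows that the traces at `ζ` and `ζ ω` agree. Hence the part of
`T (e (δ e) ^ (2 n))` which belongs to the class of `g` vanishes.
-/

set_option autoImplicit false

namespace Pool.Agent.Results.MP_1a2884_al.EvenCyclesFiniteQuotients

universe u1 u2 u3 u4 u5

/-- `(Ω, δ, T)` is a cycle of dimension `N` with values in the vector space `M`: `Ω` is a graded
algebra with homogeneous components `𝒜 i`, `δ` is a differential of degree one, and `T` is a
closed graded trace which vanishes outside degree `N`. -/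
structure IsCycle {K : Type u1} [Field K] {Ω : Type u4} [Ring Ω] [Algebra K Ω] {M : Type u5}
    [AddCommGroup M] [Module K M] (N : ℕ) (𝒜 : ℕ → Submodule K Ω) [GradedAlgebra 𝒜]
    (δ : Ω →ₗ[K] Ω) (T : Ω →ₗ[K] M) : Prop where
  deg : ∀ i, ∀ x ∈ 𝒜 i, δ x ∈ 𝒜 (i + 1)
  sq : ∀ x, δ (δ x) = 0
  leibniz : ∀ i, ∀ x ∈ 𝒜 i, ∀ y, δ (x * y) = δ x * y + (-1) ^ i * (x * δ y)
  closed : ∀ x, T (δ x) = 0
  trace : ∀ i j, ∀ x ∈ 𝒜 i, ∀ y ∈ 𝒜 j, T (x * y) = T ((-1) ^ (i * j) * (y * x))
  dim : ∀ i, i ≠ N → ∀ x ∈ 𝒜 i, T x = 0

/-- There are `m ≥ 2` and `J ≥ 1` such that `g` is conjugate to `g ^ (q ^ J)` for all `q` prime to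
`m`. -/
def AlmostDivisible {H : Type u2} [Group H] (g : H) : Prop :=
  ∃ m J : ℕ, 2 ≤ m ∧ 1 ≤ J ∧ ∀ q : ℕ, q.Coprime m → IsConj g (g ^ q ^ J)

/-- For every `m ≠ 0` the centraliser of `g` has a homomorphism `π` to a finite group with
`π(g) ^ m ≠ 1`. -/
def FiniteQuotients {H : Type u2} [Group H] (g : H) : Prop :=
  ∀ m : ℕ, m ≠ 0 → ∃ (Q : Type u2) (_ : Group Q) (_ : Finite Q)
    (π : Subgroup.centralizer ({g} : Set H) →* Q),
      π ⟨g, Subgroup.mem_centralizer_singleton_iff.2 rfl⟩ ^ m ≠ 1

/-- residually finite -/
def RF (G : Type u2) [Group G] : Prop :=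
  ∀ g : G, g ≠ 1 → ∃ N : Subgroup G, N.Normal ∧ N.FiniteIndex ∧ g ∉ N

/-- The value of the cycle on the group elements `a`, `b₁`, …, `b_r`. -/
noncomputable def value {K : Type u1} [Field K] {G : Type u2} [Group G] {Ω : Type u4} [Ring Ω]
    [Algebra K Ω] {M : Type u5} [AddCommGroup M] [Module K M] (δ : Ω →ₗ[K] Ω) (T : Ω →ₗ[K] M)
    (ρ : MonoidAlgebra K G →ₐ[K] Ω) (a : G) (l : List G) : M :=
  T (ρ (MonoidAlgebra.single a 1) * (l.map fun b => δ (ρ (MonoidAlgebra.single b 1))).prod)

/-- `K` is a field of characteristic zero, `G` a group, `e` an idempotent matrix over `K[G]`,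
`(Ω, δ, T)` a cycle over `K[G]` of dimension `2 n ≥ 2` with values in the vector space `M`.
(1) Let `H` be a subgroup which contains the supports of the entries of `e`, such that the values of
the cycle on the elements of `H` lie in the module generated by a finite set `F` over the subring
generated by a finite set `s`. For every almost divisible `g ≠ 1` of `H` suppose that the values with
product conjugate to `g` in `H` vanish, or that the centraliser of `g` in `H` has enough finite
quotients and the values with product conjugate to `g` in `H` lie in a finitely generated subgroup of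
`M`. Finally suppose that `H` has no element of order `p`, for infinitely many primes `p`, or that the
values with product `1` vanish. Then `T (e (δ e) ^ (2 n)) = 0`.
(2) `T (e (δ e) ^ (2 n)) = 0` if `G` is torsion-free, the values of the cycle lie in a finitely
generated subgroup of `M`, and the centralisers of all elements `≠ 1` of `G` or all finitely generated
subgroups of `G` are residually finite. -/
theorem result (K : Type u1) [Field K] [CharZero K] (G : Type u2) [Group G] (d : Type u3)
    [Fintype d] [DecidableEq d] (e : Matrix d d (MonoidAlgebra K G)) (he : e * e = e)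
    (Ω : Type u4) [Ring Ω] [Algebra K Ω] (𝒜 : ℕ → Submodule K Ω) [GradedAlgebra 𝒜]
    (M : Type u5) [AddCommGroup M] [Module K M] (δ : Ω →ₗ[K] Ω) (T : Ω →ₗ[K] M)
    (n : ℕ) (hn : 1 ≤ n) (hT : IsCycle (2 * n) 𝒜 δ T)
    (ρ : MonoidAlgebra K G →ₐ[K] Ω) (hρ : ∀ a, ρ a ∈ 𝒜 0) :
    (∀ (H : Subgroup G), (∀ i j g, (e i j).coeff g ≠ 0 → g ∈ H) → ∀ (s : Finset K) (F : Finset M),
      (∀ (a : H) (l : List H), l.length = 2 * n →
        value δ T ρ a (l.map Subtype.val) ∈
          Submodule.span (Algebra.adjoin ℤ (s : Set K)) (F : Set M)) →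
      (∀ g : H, g ≠ 1 → AlmostDivisible g →
        (∀ (a : H) (l : List H), l.length = 2 * n → IsConj g (a * l.prod) →
          value δ T ρ a (l.map Subtype.val) = 0) ∨
        (FiniteQuotients g ∧ ∃ F' : Finset M, ∀ (a : H) (l : List H), l.length = 2 * n →
          IsConj g (a * l.prod) →
            value δ T ρ a (l.map Subtype.val) ∈ AddSubgroup.closure (F' : Set M))) →
      ({p : ℕ | p.Prime ∧ ∀ x : H, x ^ p = 1 → x = 1}.Infinite ∨
        ∀ (a : H) (l : List H), l.length = 2 * n → a * l.prod = 1 →
          value δ T ρ a (l.map Subtype.val) = 0) →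
      T ((e.map ρ) * ((e.map ρ).map δ) ^ (2 * n)).trace = 0) ∧
    ((∀ g : G, IsOfFinOrder g → g = 1) →
      ((∀ g : G, g ≠ 1 → RF (Subgroup.centralizer ({g} : Set G))) ∨
        ∀ H : Subgroup G, H.FG → RF H) →
      ∀ F : Finset M, (∀ (a : G) (l : List G), l.length = 2 * n →
        value δ T ρ a l ∈ AddSubgroup.closure (F : Set M)) →
      T ((e.map ρ) * ((e.map ρ).map δ) ^ (2 * n)).trace = 0) := by
  classical
  have hcyc : Pool.Agent.H23R2.Ch.IsCycle (2 * n) 𝒜 δ T :=
    ⟨hT.deg, hT.sq, hT.leibniz, hT.closed, hT.trace, hT.dim⟩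
  have hmap : ∀ (H : Subgroup G) (a : H) (l : List H),
      value δ T ρ a (l.map Subtype.val) = T (ρ (MonoidAlgebra.single (a : G) 1) *
        (l.map fun b : H => δ (ρ (MonoidAlgebra.single (b : G) 1))).prod) := by
    intro H a l
    unfold value
    rw [List.map_map]
    rfl
  have part1 : ∀ (H : Subgroup G), (∀ i j g, (e i j).coeff g ≠ 0 → g ∈ H) →
      ∀ (s : Finset K) (F : Finset M),
      (∀ (a : H) (l : List H), l.length = 2 * n →
        value δ T ρ a (l.map Subtype.val) ∈
          Submodule.span (Algebra.adjoin ℤ (s : Set K)) (F : Set M)) →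
      (∀ g : H, g ≠ 1 → AlmostDivisible g →
        (∀ (a : H) (l : List H), l.length = 2 * n → IsConj g (a * l.prod) →
          value δ T ρ a (l.map Subtype.val) = 0) ∨
        (FiniteQuotients g ∧ ∃ F' : Finset M, ∀ (a : H) (l : List H), l.length = 2 * n →
          IsConj g (a * l.prod) →
            value δ T ρ a (l.map Subtype.val) ∈ AddSubgroup.closure (F' : Set M))) →
      ({p : ℕ | p.Prime ∧ ∀ x : H, x ^ p = 1 → x = 1}.Infinite ∨
        ∀ (a : H) (l : List H), l.length = 2 * n → a * l.prod = 1 →
          value δ T ρ a (l.map Subtype.val) = 0) →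
      T ((e.map ρ) * ((e.map ρ).map δ) ^ (2 * n)).trace = 0 := by
    intro H hH s F hval hloc hone
    simp only [hmap] at hval hloc hone
    exact Pool.Agent.Y84.PH.cyc_field e he H hH hn hcyc hρ s F hval hloc hone
  have htf : ∀ (H : Subgroup G), (∀ i j g, (e i j).coeff g ≠ 0 → g ∈ H) →
      (∀ g : G, IsOfFinOrder g → g = 1) → (∀ g : H, g ≠ 1 → FiniteQuotients g) →
      ∀ F : Finset M, (∀ (a : G) (l : List G), l.length = 2 * n →
        value δ T ρ a l ∈ AddSubgroup.closure (F : Set M)) →
      T ((e.map ρ) * ((e.map ρ).map δ) ^ (2 * n)).trace = 0 := by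
    intro H hH htor hfq F hF
    refine part1 H hH ∅ F (fun a l hl => ?_) (fun g hg _ => Or.inr ⟨hfq g hg, F,
      fun a l hl _ => hF _ _ (by simpa using hl)⟩) (Or.inl ?_)
    · have h1 : AddSubgroup.closure (F : Set M) ≤
          (Submodule.span (Algebra.adjoin ℤ ((∅ : Finset K) : Set K)) (F : Set M)).toAddSubgroup :=
        (AddSubgroup.closure_le _).2 Submodule.subset_span
      exact h1 (hF _ _ (by simpa using hl))
    · refine Nat.infinite_setOfPred_prime.mono ?_
      intro p hp
      refine ⟨hp, fun x hx => Subtype.ext (htor x ?_)⟩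
      rw [isOfFinOrder_iff_pow_eq_one]
      exact ⟨p, Nat.Prime.pos hp, congrArg Subtype.val hx⟩
  refine ⟨part1, fun htor hG F hF => ?_⟩
  rcases hG with hG | hG
  · refine htf ⊤ (fun _ _ g _ => Subgroup.mem_top g) htor (fun g hg m hm => ?_) F hF
    have hg1 : (g : G) ≠ 1 := fun h => hg (Subtype.ext h)
    obtain ⟨N, h1, h2, h3⟩ := hG g hg1
      ((⟨(g : G), Subgroup.mem_centralizer_singleton_iff.2 rfl⟩ :
        Subgroup.centralizer ({(g : G)} : Set G)) ^ m) (fun h4 => hg1 (htor g (by
          rw [isOfFinOrder_iff_pow_eq_one]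
          exact ⟨m, Nat.pos_of_ne_zero hm, congrArg Subtype.val h4⟩)))
    let j : Subgroup.centralizer ({g} : Set (⊤ : Subgroup G)) →*
        Subgroup.centralizer ({(g : G)} : Set G) :=
      { toFun := fun z => ⟨((z : (⊤ : Subgroup G)) : G), by
          rw [Subgroup.mem_centralizer_singleton_iff]
          exact congrArg Subtype.val (Subgroup.mem_centralizer_singleton_iff.1 z.2)⟩
        map_one' := rfl
        map_mul' := fun _ _ => rfl }
    refine ⟨Subgroup.centralizer ({(g : G)} : Set G) ⧸ N, inferInstance,
      Subgroup.finite_quotient_of_finiteIndex, (QuotientGroup.mk' N).comp j, ?_⟩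
    intro h4
    apply h3
    rw [← QuotientGroup.eq_one_iff]
    exact h4
  · let W : Finset G := Finset.univ.biUnion fun i => Finset.univ.biUnion fun j =>
      (e i j).coeff.support
    have hFG : (Subgroup.closure (W : Set G)).FG := ⟨W, rfl⟩
    refine htf (Subgroup.closure (W : Set G)) (fun i j g hg => Subgroup.subset_closure ?_) htor
      (fun g hg m hm => ?_) F hF
    · have h1 : g ∈ W := by
        simp only [W, Finset.mem_biUnion, Finset.mem_univ, true_and]
        exact ⟨i, j, Finsupp.mem_support_iff.2 hg⟩
      exact_mod_cast h1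
    · obtain ⟨N, h1, h2, h3⟩ := hG _ hFG (g ^ m) (fun h4 => hg (Subtype.ext (htor g (by
          rw [isOfFinOrder_iff_pow_eq_one]
          exact ⟨m, Nat.pos_of_ne_zero hm, congrArg Subtype.val h4⟩))))
      refine ⟨Subgroup.closure (W : Set G) ⧸ N, inferInstance,
        Subgroup.finite_quotient_of_finiteIndex,
        (QuotientGroup.mk' N).comp (Subgroup.subtype _), ?_⟩
      intro h4
      apply h3
      rw [← QuotientGroup.eq_one_iff]
      exact h4

end Pool.Agent.Results.MP_1a2884_al.EvenCyclesFiniteQuotients
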