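import Mathlib
import Pool.Agent.Y35.KC.CycH

/-!
# `K₀(K[G])` and cyclic cohomology of positive even degree

Let `K` be a field of characteristic zero (a regular ring) and `G` a group, for example a
torsion-free one. If `K₀(K) → K₀(K[G])` is surjective, then all cyclic cocycles of degree
`2 n ≥ 2` on `K[G]`, that is all cycles `(Ω, δ, T)` of dimension `2 n ≥ 2` in the sense of Connes,
vanish on all idempotent matrices `e` over `K[G]`: `T (e (δ e) ^ (2 n)) = 0`. We prove this,
without any assumption on `K₀`, for the cycles whose values on the elements of `G` lie in a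
finitely generated module over a finitely generated subring of `K`, and which vanish on the
products of group elements which are almost divisible: conjugate, for all `q` prime to some `m`,
to their `q ^ J`-th power, in a subgroup containing the support of `e`. For torsion-free `G` this
is the case for all cycles which are supported at the conjugacy class of `1`, and for all cycles if
no element other than `1` is almost divisible.
-/

set_option autoImplicit false

namespace Pool.Agent.Results.MP_1a2884_al.EvenCyclesOverFields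

universe u1 u2 u3 u4 u5

/-- `(Ω, δ, T)` is a cycle of dimension `N` with values in the vector space `M`: `Ω` is a graded
algebra with homogeneous components `𝒜 i`, `δ` is a differential of degree one, and `T` is a
closed graded trace which vanishes outside degree `N`. -/
structure IsCycle {K : Type u1} [Field K] {Ω : Type u4} [Ring Ω] [Algebra K Ω] {M : Type u5}
    [AddCommGroup M] [Module K M] (N : ℕ) (𝒜 : ℕ → Submodule K Ω) [GradedAlgebra 𝒜]
    (δ : Ω →ₗ[K] Ω) (T : Ω →ₗ[K] M) : Prop where
  deg : ∀ i, ∀ x ∈ 𝒜 i, δ x ∈ 𝒜 (i + 1)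
  sq : ∀ x, δ (δ x) = 0
  leibniz : ∀ i, ∀ x ∈ 𝒜 i, ∀ y, δ (x * y) = δ x * y + (-1) ^ i * (x * δ y)
  closed : ∀ x, T (δ x) = 0
  trace : ∀ i j, ∀ x ∈ 𝒜 i, ∀ y ∈ 𝒜 j, T (x * y) = T ((-1) ^ (i * j) * (y * x))
  dim : ∀ i, i ≠ N → ∀ x ∈ 𝒜 i, T x = 0

/-- There are `m ≥ 2` and `J ≥ 1` such that `g` is conjugate to `g ^ (q ^ J)` for all `q` prime to
`m`. -/
def AlmostDivisible {H : Type u2} [Group H] (g : H) : Prop :=
  ∃ m J : ℕ, 2 ≤ m ∧ 1 ≤ J ∧ ∀ q : ℕ, q.Coprime m → IsConj g (g ^ q ^ J)

/-- The value of the cycle on the group elements `a`, `b₁`, …, `b_r`. -/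
noncomputable def value {K : Type u1} [Field K] {G : Type u2} [Group G] {Ω : Type u4} [Ring Ω]
    [Algebra K Ω] {M : Type u5} [AddCommGroup M] [Module K M] (δ : Ω →ₗ[K] Ω) (T : Ω →ₗ[K] M)
    (ρ : MonoidAlgebra K G →ₐ[K] Ω) (a : G) (l : List G) : M :=
  T (ρ (MonoidAlgebra.single a 1) * (l.map fun b => δ (ρ (MonoidAlgebra.single b 1))).prod)

/-- `K` is a field of characteristic zero, `G` a group, `e` an idempotent matrix over `K[G]`, `H` a
subgroup which contains the supports of the entries of `e`, `(Ω, δ, T)` a cycle over `K[G]` of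
dimension `2 n ≥ 2` with values in the vector space `M`; its values on the elements of `H` lie in
the module generated by a finite set `F` over the subring generated by a finite set `s`. They
vanish if the product `g ≠ 1` of the elements is almost divisible in `H`; and `H` has no element of
order `p`, for infinitely many primes `p`, or they vanish if the product is `1`. Then
`T (e (δ e) ^ (2 n)) = 0`. -/
theorem result (K : Type u1) [Field K] [CharZero K] (G : Type u2) [Group G] (d : Type u3)
    [Fintype d] [DecidableEq d] (e : Matrix d d (MonoidAlgebra K G)) (he : e * e = e)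
    (H : Subgroup G) (hH : ∀ i j g, (e i j).coeff g ≠ 0 → g ∈ H)
    (Ω : Type u4) [Ring Ω] [Algebra K Ω] (𝒜 : ℕ → Submodule K Ω) [GradedAlgebra 𝒜]
    (M : Type u5) [AddCommGroup M] [Module K M] (δ : Ω →ₗ[K] Ω) (T : Ω →ₗ[K] M)
    (n : ℕ) (hn : 1 ≤ n) (hT : IsCycle (2 * n) 𝒜 δ T)
    (ρ : MonoidAlgebra K G →ₐ[K] Ω) (hρ : ∀ a, ρ a ∈ 𝒜 0) (s : Finset K) (F : Finset M)
    (hval : ∀ (a : G) (l : List G), a ∈ H → (∀ b ∈ l, b ∈ H) → l.length = 2 * n →
      value δ T ρ a l ∈ Submodule.span (Algebra.adjoin ℤ (s : Set K)) (F : Set M))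
    (hdiv : ∀ g : H, g ≠ 1 → AlmostDivisible g → ∀ (a : G) (l : List G), a ∈ H →
      (∀ b ∈ l, b ∈ H) → l.length = 2 * n → a * l.prod = g → value δ T ρ a l = 0)
    (hone : {p : ℕ | p.Prime ∧ ∀ x ∈ H, x ^ p = 1 → x = 1}.Infinite ∨
      ∀ (a : G) (l : List G), a ∈ H → (∀ b ∈ l, b ∈ H) → l.length = 2 * n → a * l.prod = 1 →
        value δ T ρ a l = 0) :
    T ((e.map ρ) * ((e.map ρ).map δ) ^ (2 * n)).trace = 0 :=
  Pool.Agent.Y35.KC.cyc_field e he H hH hn
    ⟨hT.deg, hT.sq, hT.leibniz, hT.closed, hT.trace, hT.dim⟩ hρ s F hval hdiv hone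

end Pool.Agent.Results.MP_1a2884_al.EvenCyclesOverFields
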