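import Pool.Agent.Y75.DT.Thm

set_option autoImplicit false

namespace Pool.Agent.Results.MP_1a2884_al.NoncommutativeTraces

open Pool.Agent.Y75.DT

/-- **Traces of projective modules over group rings with arbitrary coefficient rings.** Let `h` be an
element of a group `H` which has a nontrivial image under some homomorphism to a group `F / [N, N]`,
where `F` is a free group and `N` is any normal subgroup of `F`. Then there is `n > 0`, which depends
only on `h`, such that `n` kills the Hattori-Stallings trace in `R / [R, R]` at `h` of every idempotent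
matrix over `R[H]`, for every ring `R`. If `R / [R, R]` is torsion-free, for example if `R` is an
algebra over the rational numbers, then an idempotent matrix `e` over `R[F / [N, N]]` has the same
Hattori-Stallings trace as its augmentation over `R`. -/
theorem result :
    (∀ (H : Type) [Group H] (h : H) (X : Type) (N : Subgroup (FreeGroup X)) [N.Normal]
      (f : H →* FreeGroup X ⧸ ⁅N, N⁆), f h ≠ 1 →
      ∃ n : ℕ, 0 < n ∧ ∀ (R : Type) [Ring R] (k : ℕ)
        (e : Matrix (Fin k) (Fin k) (MonoidAlgebra R H)), e * e = e → n • hs e h = 0) ∧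
    (∀ (R : Type) [Ring R], (∀ (n : ℕ) (x : HH R), 0 < n → n • x = 0 → x = 0) →
      ∀ (X : Type) (N : Subgroup (FreeGroup X)) [N.Normal] (k : ℕ)
        (e : Matrix (Fin k) (Fin k) (MonoidAlgebra R (FreeGroup X ⧸ ⁅N, N⁆))), e * e = e →
        (∀ g, g ≠ 1 → hs e g = 0) ∧ hs e 1 = ∑ i, cl R (aug (e i i))) :=
  ⟨fun H _ h X N _ f hf => nsmul_hs h X N f hf, fun R _ hR X N _ k e he => hs_zero R hR X N k e he⟩

end Pool.Agent.Results.MP_1a2884_al.NoncommutativeTraces
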